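import Pool.Agent.H28.HN.Main

/-!
# MP_0c8446_ag: homological and numerical equivalence on the products of arbitrary varieties with
almost all varieties of any weight with given Newton polygons

Let `p` be a prime and `q = p ^ m`. Fix a weight `n`, a degree `2 g` and a symmetric polygon with the
slopes `s 0 ≤ ... ≤ s (g - 1) ≤ n / 2`, not all equal to `n / 2` (for instance the Newton polygon of
the transcendental cohomology of K3 surfaces of height `h` and Picard number `22 - 2 g`, or the
Hodge polygon of a Calabi-Yau threefold). There are finitely many integral polynomials `f` of degree
`2 g` whose complex roots all have the absolute value `q ^ (n / 2)` (with constant term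
`q ^ (n g)`), and whose Newton polygon is not below the polygon and passes through the points of the
polygon in a given set `T` (if `T` contains all vertices, then the Newton polygon of `f` is the
given one). Their number tends to infinity with `m`.

Let `n i, g i, s i, T i`, for `i` in a finite set, be such data, let `E` be a number field in the
complex numbers and `r < g i` for all `i`.

**For all but at most `ε * ∏ i, #(polynomials)` of the tuples of such polynomials, for all large
`m`, the following holds**, for every Weil cohomology with algebraically closed coefficients. Let
`Y` be any smooth projective variety whose cohomology is spanned by algebraic classes (for instance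
a product of projective spaces), and `X_i`, for all `i`, **any** smooth projective variety of
dimension `n i` over `Y` with a model over the field with `q = p ^ m` elements, whose cohomology is
the sum of the pull-back of the cohomology of `Y` and of a subspace of the cohomology of degree
`n i` on which the Frobenius endomorphism has the characteristic polynomial `f i`. Let `X` be
**any product** of copies of `Y` and of the varieties `X_i`. Then

* homological and numerical equivalence coincide on `X` in all codimensions;
* for **all** smooth projective varieties `U` such that the eigenvalues of Frobenius on the
  cohomology of `U` have rank at most `r` over `E`, nothing else being assumed about `U`, and for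
  all `c`: the classes of the cycles of codimension `c` on `X × U` are combinations of exterior
  products of classes of cycles on `X` and on `U`; the rank of the group of the cycles modulo
  numerical equivalence is `∑_{i + j = c} ρ_i(X) ρ_j(U)`, and modulo homological equivalence it is
  `∑_{i + j = c} ρ_i(X) ρ^hom_j(U)`; and **homological and numerical equivalence coincide in
  codimension `c` on `X × U` if and only if they coincide in codimension `j` on `U` for all
  `i + j = c` with `ρ_i(X) ≠ 0`** (that is, for all `i ≤ dim X`, if `X` is projective).
-/

set_option autoImplicit false

open CategoryTheory AlgebraicGeometry Polynomial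

universe u v

namespace Pool.Agent.Results.MP_0c8446_ag.GivenNewtonPolygons

open Pool.Agent.H28.HP Pool.Agent.H28.HN

/-- **Homological and numerical equivalence on the products of all varieties of small Frobenius rank
with all varieties having almost all tuples of Weil polynomials with given Newton polygons.** -/
theorem result {p : ℕ} (hp : p.Prime) {I : Type} [Fintype I] (n g : I → ℕ) (s : I → ℕ → ℚ)
    (T : I → Set ℕ) (hs : ∀ i, IsPolygon (n i) (g i) (s i) (T i))
    (E : Subfield ℂ) [NumberField E] (r : ℕ) (hr : ∀ i, r < g i) {ε : ℝ} (hε : 0 < ε) (N : ℕ) :
    ∃ m₀ : ℕ, ∀ m ≥ m₀,
      (∀ i, (weilPolysAbove p m (n i) (g i) (s i) (T i)).Finite ∧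
        N ≤ (weilPolysAbove p m (n i) (g i) (s i) (T i)).ncard) ∧
      ({f : I → ℤ[X] | (∀ i, f i ∈ weilPolysAbove p m (n i) (g i) (s i) (T i)) ∧
        ¬ AllProductsD.{u, v} p m n E r f}.ncard : ℝ) ≤
      ε * ∏ i, ((weilPolysAbove p m (n i) (g i) (s i) (T i)).ncard : ℝ) :=
  main hp hs E r hr hε N

end Pool.Agent.Results.MP_0c8446_ag.GivenNewtonPolygons
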