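import Pool.Agent.H81.RZ.Kr
import Pool.Agent.H51.KG.Low
import Pool.Agent.H55.TH.Ksm
import Pool.Graph.R_pool_sql_team_seeded_2aa45f1a.Q193.LT.Cyc

/-!
# Homological and numerical equivalence, and the Kirchhoff polynomials of graphs of maximal degree three

Let `F` be a prime field (`ℚ` or a finite field with `p` elements) and `k` an algebraic extension of `F`
(for instance `k = F`, or an algebraic closure of `F`), and fix a Weil cohomology theory `H` with a
coefficient field of characteristic zero on smooth projective varieties over `k` (one of the classical
ones). For a smooth projective scheme `Y` over `F` let `A^n(Y)` be the group of the cycles of codimension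
`n` on `Y_k` with rational coefficients modulo homological equivalence, and `B^n(Y)` the group of these
cycles modulo numerical equivalence. These are additive functors of the Chow motive of `Y_k`, with a
surjection `A^n(Y) → B^n(Y)`.

For a separated scheme `X` of finite type over `F` let `W(X)` be the weight complex of `X_k` (Gillet,
Soulé, Bondarko; a complex of Chow motives over `k` with rational coefficients, for the cohomology with
compact supports; `W(X) = h(X_k)` for smooth projective `X`), and put `A^{n,i}(X) = H^i(A^n(W(X)))` and
`B^{n,i}(X) = H^i(B^n(W(X)))`. `BijAll C X` says that the maps `A^{n,i}(X) → B^{n,i}(X)` are isomorphisms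
for all `n` and `i`. For smooth projective `Y` the groups for `i ≠ 0` are zero, and `BijAll C Y` says that
homological and numerical equivalence coincide on `Y_k` (property `Describes.classes`). Every smooth
projective variety over `k` is a union of connected components of `Y_k` for a smooth projective scheme `Y`
over `F` of the same dimension.

The Kirchhoff polynomial of a finite graph `G` is `Ψ_G = ∑_T ∏_{e ∈ T} x_e`, the sum over the spanning
trees of `G`. All graphs are simple. A graph is split, if its vertices are the disjoint union of an
independent set and a clique.

**Theorem.** If the maps `A^{n,i}(X) → B^{n,i}(X)` are isomorphisms for the hypersurfaces `X : Ψ_G = 0`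
over `F` of all graphs `G` whose vertices have at most three neighbours, or for the smooth affine varieties
`X : Ψ_G ≠ 0` of all these graphs, then they are isomorphisms for all separated schemes of finite type over
`F`, and homological and numerical equivalence coincide on all smooth projective varieties over `k`; the
same is true for the split graphs. Conversely, if the two equivalence relations coincide on all smooth
projective varieties over `k`, and as smooth projective varieties generate (`Generated`), then the maps are
isomorphisms for all these hypersurfaces and their complements.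

The bound three is optimal: the maps `A^{n,i}(X) → B^{n,i}(X)` are isomorphisms for `X : Ψ_G = 0` and for
`X : Ψ_G ≠ 0`, if the vertices of `G` have at most two neighbours (unconditionally). The same is
true for the split graphs whose independent set has at most two vertices or whose clique has at most three
vertices, for instance for all complete graphs.

The universality for all graphs (for classes in a localised Grothendieck ring) is a theorem of Belkale and
Brosnan, whose graphs have vertices of arbitrarily large degree. The degrees are made small as follows. Let
`v` be a vertex of `G` with at least four neighbours, and let `G'` be the graph in which `v` is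
split into a vertex with two of the neighbours and a vertex with the others, joined by a new edge `e`, and
`G''` the graph in which `e` is subdivided. With `A = Ψ_G` and `B = Ψ_{G' - e}` we have `Ψ_{G'} = A x + B` and
`Ψ_{G''} = A x y + B (x + y)`. So `{Ψ_{G'} ≠ 0}` consists of `{B ≠ 0}` and of `{A + B s ≠ 0, s ≠ 0}`, and
`{Ψ_{G''} ≠ 0}` of two copies of `{B ≠ 0} × 𝔾_m` and of `{A + B (s + t) ≠ 0, s ≠ 0, t ≠ 0}`. The last
one together with `{A + B s ≠ 0, s ≠ 0}` (for `t = 0`) is `{A + B s ≠ 0} × 𝔾_m`, and `{A + B s ≠ 0}`
consists of `{A + B s ≠ 0, s ≠ 0}` and of `{A ≠ 0}`, the complement of `Ψ_G = 0`. The graphs `G'`, `G''` and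
`G' - e` have a smaller sum of the numbers `deg - 3`, `deg > 3`.
-/

set_option autoImplicit false

open CategoryTheory CategoryTheory.Limits AlgebraicGeometry Pool.Agent.Y116.UV Pool.Agent.Z125.UN
  Pool.Agent.Q193.LT Pool.Agent.H81.RZ Pool.Agent.H51.KG
  Pool.Agent.H55.TH

universe w w'

namespace Pool.Agent.Results.MP_0c8446_ag.KirchhoffHypersurfaces

/-- Cycles with rational coefficients, cycle classes and the degrees of the products of cycles. -/
structure CycleData (F : Type) [Field F] where
  /-- the cycles of codimension `r` on `X_k`, with rational coefficients -/
  Z : ℕ → Sch F → ModuleCat.{w'} ℚ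
  /-- the cohomology group `H^{2r}(X_k)` -/
  H : ℕ → Sch F → ModuleCat.{w'} ℚ
  /-- the cycle class map -/
  cl : ∀ r X, Z r X ⟶ H r X
  /-- the numbers `deg (a · b)` for cycles `b` of complementary dimension on a component of `X_k` -/
  deg : ∀ {r : ℕ} (s : ℕ) {X : Sch F}, Z r X → Z s X → ℚ

/-- All numerically trivial cycles on `X_k` are homologically trivial. -/
def HomNum {F : Type} [Field F] (D : CycleData.{w'} F) (X : Sch F) : Prop :=
  ∀ (r : ℕ) (a : D.Z r X), (∀ (s : ℕ) (b : D.Z s X), D.deg s a b = 0) → (D.cl r X).hom a = 0

/-- The maps from cycles modulo homological equivalence to cycles modulo numerical equivalence, and the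
known standard properties of weight complexes. -/
structure Describes {F : Type} [Field F] (D : CycleData.{w'} F) (C : PairData.{w} F (ℤ × ℤ) ℚ) :
    Prop where
  classes : ∀ Y : Sch F, SmoothProj Y → (HomNum D Y ↔ BijAll C Y)
  weight : IsWeightPair C
  point : BijAll C (aff F F)

/-- The maps `A^{n,i}(X) → B^{n,i}(X)` are isomorphisms for all separated schemes `X` of finite type if
this is true for smooth projective schemes. -/
def Generated {F : Type} [Field F] (C : PairData.{w} F (ℤ × ℤ) ℚ) : Prop :=
  (∀ Y : Sch F, SmoothProj Y → BijAll C Y) → OnAll True (BijAll C)

/-- **Homological and numerical equivalence, and the Kirchhoff polynomials of graphs.** See the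
explanations above. -/
theorem result {F : Type} [Field F] (hF : Frac F) {D : CycleData.{w'} F}
    {C : PairData.{w} F (ℤ × ℤ) ℚ} (h : Describes D C) :
    -- graphs whose vertices have at most three neighbours
    (OnDegree 3 (BijAll C) ↔ OnAll True (BijAll C)) ∧
    (OffDegree 3 (BijAll C) ↔ OnAll True (BijAll C)) ∧
    -- unconditionally: at most two neighbours, and split graphs with a small part
    OnDegree 2 (BijAll C) ∧ OffDegree 2 (BijAll C) ∧ OnSmallKirchhoff (BijAll C) ∧
    -- split graphs
    (OnKirchhoff (BijAll C) ↔ OnAll True (BijAll C)) ∧
    (OffKirchhoff (BijAll C) ↔ OnAll True (BijAll C)) ∧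
    -- smooth projective varieties
    (OnAll True (BijAll C) → ∀ Y : Sch F, SmoothProj Y → HomNum D Y) ∧
    (Generated C → (∀ Y : Sch F, SmoothProj Y → HomNum D Y) → OnAll True (BijAll C)) := by
  have hP := bnd_pair h.weight h.point
  exact ⟨(all_onDegree_iff hF hP).symm, (all_offDegree_iff hF hP).symm, on_two hP.toUni,
    off_two hP.toUni, small_of_bnd hP h.point, (all_kirchhoff_iff hF hP).symm, (all_offKirchhoff_iff hF hP).symm,
    fun g Y hY => (h.classes Y hY).mpr (g Y hY.ft),
    fun hg g => hg fun Y hY => (h.classes Y hY).mp (g Y hY)⟩

end Pool.Agent.Results.MP_0c8446_ag.KirchhoffHypersurfaces
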