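import Pool.Agent.H61.LS.Alg
import Pool.Agent.H61.ZX.Defs

/-!
# Homological and numerical equivalence on `Z × X^n` in single codimensions

Let `X` and `Z` be smooth projective varieties over a field, with a Weil cohomology, let `β` be the
total Betti number of `Z` and `dim X > 0`. For a variety `Y` and an integer `j` let `c(Y, j)` be the
rank of the group of the cycles of codimension `j` modulo numerical equivalence, and `a(Y, j)` the
dimension of the span of their cohomology classes. Codimensions on `Z × X^n` at bounded distance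
from `n dim X / 2` are called near the middle.

* If the sign conjecture holds for `X` (for example over an algebraic extension of a finite field,
  or if `X` is an abelian variety), then either homological and numerical equivalence agree on all
  powers of `X`, or for **every** `Z` the quotients `c(Z × X^n, j) / a(Z × X^n, j)` tend to zero,
  uniformly for all codimensions `j` near the middle. So if for one `Z`, one `ε > 0` and
  infinitely many `n` there is one **single** codimension `j` near the middle with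
  `c(Z × X^n, j) > ε a(Z × X^n, j)`, the two equivalences agree on all powers of `X`, in all
  codimensions.
* If the two equivalences agree on all powers of `X`, there is an integer `1 ≤ w ≤ β` such that
  `c(Z × X^n, i_n) / c(X^n, j_n)` tends to `w` for all sequences of codimensions `i_n`, `j_n` near the
  middle; and either the two equivalences agree on all `Z × X^n`, or `w ≤ β - 2` and for every
  `ε > 0` and all large `n` we have `c(Z × X^n, j) ≤ (1 - 1 / (β - 1) + ε) a(Z × X^n, j)` for all `j`
  near the middle. Here the sign conjecture is not assumed, but the hard Lefschetz theorem for one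
  divisor on `X`.
-/

set_option autoImplicit false

open CategoryTheory AlgebraicGeometry Filter Topology

universe u v

namespace Pool.Agent.Results.MP_0c8446_ag.SingleCodimensions

open Module
open Pool.Agent.H914 Pool.Agent.H914.VarClass Pool.Agent.H914.VarClass.Obj
  Pool.Agent.H914.WeilCohomology Pool.Agent.H447 Pool.Agent.H61 Pool.Agent.H61.GX
  Pool.Agent.H61.LS Pool.Agent.H281R3.HT
open Pool.Agent.H61.ZX (RatioTendsTo)
open Pool.Agent.Y133.Half (pw algSys homEqNum_iff)
open Pool.Agent.Y163 (Big)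
open Pool.Agent.W534 (numRank)

variable {k : Type u} [Field k] {𝒱 : VarClass k} {ops : CycleOps 𝒱}

/-- **Homological and numerical equivalence in single codimensions.** `pw X n` is the product of
`n + 1` copies of `X`. -/
theorem result (W : WeilCohomology.{u, v} ops) (X Z : 𝒱.Obj) (hd : 0 < X.dim)
    (hDX : ∃ D, X.IsCyc 1 D ∧ Big ops X D) (hDZ : ∃ D, Z.IsCyc 1 D ∧ Big ops Z D) :
    -- the zero-one law in single codimensions
    (SignStd W X → (∀ n, HomEqNum W (pw X n)) ∨
      ∀ (J : ℕ) (ε : ℝ), 0 < ε → ∃ n₀ : ℕ, ∀ n ≥ n₀, ∀ j : ℕ,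
        |2 * (j : ℤ) - (n + 1) * X.dim| ≤ J →
          (numRank ops (Z.prod (pw X n)) j : ℝ) ≤ ε * algDimIn W (Z.prod (pw X n)) j) ∧
    -- the limits and the gap, if the two equivalences agree on the powers of `X`
    ((∀ n, HomEqNum W (pw X n)) → (∃ D, X.IsCyc 1 D ∧ HardLefschetz W X D) →
      ∃ w : ℕ, 1 ≤ w ∧ w ≤ finrank W.K (W.H Z) ∧
      (∀ i j : ℕ → ℕ, NearMiddle X i → NearMiddle X j →
        RatioTendsTo (fun n => numRank ops (Z.prod (pw X n)) (i n))
          (fun n => numRank ops (pw X n) (j n)) (w : ℝ)) ∧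
      ((∀ n, HomEqNum W (Z.prod (pw X n))) ∨ (w + 2 ≤ finrank W.K (W.H Z) ∧
        ∀ (J : ℕ) (ε : ℝ), 0 < ε → ∃ n₀ : ℕ, ∀ n ≥ n₀, ∀ j : ℕ,
          |2 * (j : ℤ) - (n + 1) * X.dim| ≤ J →
            (numRank ops (Z.prod (pw X n)) j : ℝ) ≤
              (1 - 1 / ((finrank W.K (W.H Z) : ℝ) - 1) + ε) *
                algDimIn W (Z.prod (pw X n)) j))) := by
  obtain ⟨D, hD, hD'⟩ := hDX
  obtain ⟨E, hE, hE'⟩ := hDZ
  have htr : W.tr X (W.cl X D ^ X.dim) ≠ 0 := hD'.tr hD
  have htrZ : W.tr Z (W.cl Z E ^ Z.dim) ≠ 0 := hE'.tr hE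
  have hgr : SGr (algSys W) := sgr_alg W
  have hZ1 : (1 : W.H Z) ≠ 0 := by
    intro h1
    apply htrZ
    have h2 : W.cl Z E ^ Z.dim = 1 * W.cl Z E ^ Z.dim := (one_mul _).symm
    rw [h2, h1, zero_mul, map_zero]
  have hpt : ∃ l ∈ GC (algSys W) Z Z.dim, W.tr Z l = 1 := alg_pt hE htrZ
  have hrank : ∀ (n j : ℕ), j ≤ (Z.prod (pw X n)).dim →
      numRank ops (Z.prod (pw X n)) j =
        ag (algSys W) (Z.prod (pw X n)) j (Z.dim + (n + 1) * X.dim - j) := by
    intro n j hj
    rw [rr_eq W hj]
    congr 1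
    rw [dim_prod, dim_pw]
    push_cast
    ring
  refine ⟨fun hsign => ?_, fun hN' hHL => ?_⟩
  · have hS : GBig (algSys W) X := gbig_of_par (algSys W) (par_of_sign hsign) hd
      (fun _ => le_rfl) hD htr
    by_cases hN : ∀ n, (algSys W).Num (pw X n) = ⊥
    · exact Or.inl fun n => (homEqNum_iff _).2 (hN n)
    right
    intro J ε hε
    obtain ⟨N, hN'⟩ := exists_nat_gt (1 / ε)
    obtain ⟨n₀, hn₀⟩ := gzero_law hgr hS hZ1 hN N J
    refine ⟨max n₀ J, fun n hn j hj => ?_⟩
    have hjd := le_of_near' (Z := Z) hd ((le_max_right _ _).trans hn) hj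
    have h1 := hn₀ n ((le_max_left _ _).trans hn) j (Z.dim + (n + 1) * X.dim - j) (by ring) hj
    rw [hrank n j hjd, algDimIn_eq]
    have h2 : ((N : ℝ) * ag (algSys W) (Z.prod (pw X n)) j (Z.dim + (n + 1) * X.dim - j)) ≤
        finrank W.K (GC (algSys W) (Z.prod (pw X n)) j) := by exact_mod_cast h1
    have h3 : (0 : ℝ) ≤ ag (algSys W) (Z.prod (pw X n)) j (Z.dim + (n + 1) * X.dim - j) :=
      Nat.cast_nonneg _
    have h4 : 1 ≤ ε * N := by
      rw [div_lt_iff₀ hε] at hN'
      linarith
    calc (ag (algSys W) (Z.prod (pw X n)) j (Z.dim + (n + 1) * X.dim - j) : ℝ)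
        ≤ (ε * N) * ag (algSys W) (Z.prod (pw X n)) j (Z.dim + (n + 1) * X.dim - j) :=
          le_mul_of_one_le_left h3 h4
      _ = ε * (N * ag (algSys W) (Z.prod (pw X n)) j (Z.dim + (n + 1) * X.dim - j)) := by ring
      _ ≤ _ := mul_le_mul_of_nonneg_left h2 hε.le
  · obtain ⟨D', hD1, hHL⟩ := hHL
    have hS : GBig (algSys W) X := gbig_of_par (algSys W) (par_of_homEqNum hD1 hHL hN') hd
      (fun _ => le_rfl) hD htr
    have hN : ∀ n, (algSys W).Num (pw X n) = ⊥ := fun n => (homEqNum_iff _).1 (hN' n)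
    obtain ⟨w, hw1, hw2, a1, a2, h⟩ := glimit_gap hgr hS hN hpt
    have a3 : Asy X (fun n d => ag (algSys W) (pw X n) d ((n + 1) * X.dim - d)) 1
        (nrmg (algSys W) X) := asy_pw hS
    have hν : ∀ n, nrmg (algSys W) X n ≠ 0 := fun n => (nrmg_pos hS n).ne'
    refine ⟨w, hw1, hw2, fun i j hi hj => ?_, ?_⟩
    · have h1 := (a1.tendsto (nrmg_pos hS) hi).div (a3.tendsto (nrmg_pos hS) hj) one_ne_zero
      rw [div_one] at h1
      refine h1.congr' ?_
      obtain ⟨n₀, hn₀⟩ := hi.le hd
      obtain ⟨n₁, hn₁⟩ := hj.le hd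
      filter_upwards [eventually_ge_atTop (max n₀ n₁)] with n hn
      have e1 := hn₀ n ((le_max_left _ _).trans hn)
      have e2 := hn₁ n ((le_max_right _ _).trans hn)
      rw [Pi.div_apply, div_div_div_cancel_right₀ (hν n), hrank, rr_eq W, dim_pw]
      · push_cast
        rfl
      · rw [dim_pw]
        exact e2
      · rw [dim_prod, dim_pw]
        exact e1.trans (Nat.le_add_left _ _)
    · rcases h with h | ⟨h1, h2⟩
      · exact Or.inl fun n => (homEqNum_iff _).2 (h n)
      · refine Or.inr ⟨h1, fun J ε hε => ?_⟩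
        obtain ⟨n₀, hn₀⟩ := h2 ε hε J
        refine ⟨max n₀ J, fun n hn j hj => ?_⟩
        have hjd := le_of_near' (Z := Z) hd ((le_max_right _ _).trans hn) hj
        rw [hrank n j hjd, algDimIn_eq]
        exact hn₀ n ((le_max_left _ _).trans hn) j hj

end Pool.Agent.Results.MP_0c8446_ag.SingleCodimensions
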