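import Pool.Agent.H81.RZ.Cell2
import Pool.Agent.H55.TH.Thin
import Pool.Agent.H51.TH.Spaces

/-!
# Homological and numerical equivalence, and thin Schubert cells of lines and planes

Let `F` be a prime field (`ℚ` or a finite field with `p` elements) and `k` an algebraic extension of `F`
(for instance `k = F`, or an algebraic closure of `F`), and fix a Weil cohomology theory `H` with a
coefficient field of characteristic zero on smooth projective varieties over `k` (one of the classical
ones). For a smooth projective scheme `Y` over `F` let `A^n(Y)` be the group of the cycles of codimension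
`n` on `Y_k` with rational coefficients modulo homological equivalence, and `B^n(Y)` the group of these
cycles modulo numerical equivalence. These are additive functors of the Chow motive of `Y_k`, with a
surjection `A^n(Y) → B^n(Y)`.

For a separated scheme `X` of finite type over `F` let `W(X)` be the weight complex of `X_k` (Gillet,
Soulé, Bondarko; a complex of Chow motives over `k` with rational coefficients, for the cohomology with
compact supports; `W(X) = h(X_k)` for smooth projective `X`), and put `A^{n,i}(X) = H^i(A^n(W(X)))` and
`B^{n,i}(X) = H^i(B^n(W(X)))`. `BijAt C Prod.fst n X` says that the maps `A^{n,i}(X) → B^{n,i}(X)` are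
isomorphisms for the one number `n` and all `i`. For smooth projective `Y` the groups for `i ≠ 0` are
zero, and `BijAt C Prod.fst n Y` says that homological and numerical equivalence coincide on the cycles of
codimension `n` on `Y_k` (property `Describes.classes`). Every smooth projective variety over `k` is a
union of connected components of `Y_k` for a smooth projective scheme `Y` over `F` of the same dimension.

The thin Schubert cell of a set `B` of three-element subsets of the set of columns consists of the
matrices `(1 | A)` with three rows over `F`, whose maximal minors with the columns in `B` are different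
from zero, while all the other maximal minors are zero. It is a stratum of the Grassmannian `Gr(3, 3 + n)`
in its stratification by the matroids of the subspaces (Gelfand, Goresky, MacPherson, Serganova), and it
is empty if `B` is not the set of bases of a matroid.

`Thinr F 2 B` is the same for the matrices `(1 | A)` with two rows, and the Grassmannians `Gr(2, 2 + m)`.

**Theorem.** (1) The maps `A^{n,i}(X) → B^{n,i}(X)` are isomorphisms for all `n` and `i` and all thin
Schubert cells `X` of the Grassmannians `Gr(2, 2 + m)`. (2) Let `n` be a fixed codimension. The maps `A^{n,i}(X) → B^{n,i}(X)` are isomorphisms for all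
`i` and all separated schemes `X` of finite type over `F` if and only if this is true for all thin
Schubert cells of the Grassmannians `Gr(3, 3 + m)`; and then homological and numerical equivalence coincide on
the cycles of codimension `n` on all smooth projective varieties over `k`. Conversely, if this is true,
and as smooth projective varieties generate (`GeneratedIn`), then the maps are isomorphisms for all thin
Schubert cells.
-/

set_option autoImplicit false

open CategoryTheory CategoryTheory.Limits AlgebraicGeometry Pool.Agent.Y116.UV Pool.Agent.Z125.UN
  Pool.Agent.Q193.LT Pool.Agent.Q49.WU Pool.Agent.H81.RZ Pool.Agent.H55.TH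

universe w w'

namespace Pool.Agent.Results.MP_0c8446_ag.ThinSchubertCells

/-- Cycles with rational coefficients, cycle classes and the degrees of the products of cycles. -/
structure CycleData (F : Type) [Field F] where
  /-- the cycles of codimension `r` on `X_k`, with rational coefficients -/
  Z : ℕ → Sch F → ModuleCat.{w'} ℚ
  /-- the cohomology group `H^{2r}(X_k)` -/
  H : ℕ → Sch F → ModuleCat.{w'} ℚ
  /-- the cycle class map -/
  cl : ∀ r X, Z r X ⟶ H r X
  /-- the numbers `deg (a · b)` for cycles `b` of complementary dimension on a component of `X_k` -/
  deg : ∀ {r : ℕ} (s : ℕ) {X : Sch F}, Z r X → Z s X → ℚ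

/-- The numerically trivial cycles of codimension `r` on `X_k` are homologically trivial. -/
def HomNumIn {F : Type} [Field F] (D : CycleData.{w'} F) (r : ℕ) (X : Sch F) : Prop :=
  ∀ a : D.Z r X, (∀ (s : ℕ) (b : D.Z s X), D.deg s a b = 0) → (D.cl r X).hom a = 0

/-- The maps from cycles modulo homological equivalence to cycles modulo numerical equivalence, and the
known standard properties of weight complexes. -/
structure Describes {F : Type} [Field F] (D : CycleData.{w'} F) (C : PairData.{w} F (ℤ × ℤ) ℚ) :
    Prop where
  classes : ∀ (r : ℕ) (Y : Sch F), SmoothProj Y → (HomNumIn D r Y ↔ BijAt C Prod.fst r Y)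
  weight : IsWeightPair C
  point : BijAll C (aff F F)

/-- The maps `A^{n,i}(X) → B^{n,i}(X)` are isomorphisms for the one number `n`, all `i` and all separated
schemes `X` of finite type if this is true for smooth projective schemes. -/
def GeneratedIn {F : Type} [Field F] (C : PairData.{w} F (ℤ × ℤ) ℚ) (n : ℕ) : Prop :=
  (∀ Y : Sch F, SmoothProj Y → BijAt C Prod.fst n Y) → OnAll True (BijAt C Prod.fst n)

/-- **Homological and numerical equivalence and thin Schubert cells: `Gr(2, 2 + m)` and `Gr(3, 3 + m)`.**
See the explanations above. -/
theorem result {F : Type} [Field F] (hF : Frac F) {D : CycleData.{w'} F}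
    {C : PairData.{w} F (ℤ × ℤ) ℚ} (h : Describes D C) :
    (∀ n : ℤ, OnThinr 2 (BijAt C Prod.fst n)) ∧
    ∀ n : ℕ,
      (OnThin (BijAt C Prod.fst n) ↔ OnAll True (BijAt C Prod.fst n)) ∧
      (OnThin (BijAt C Prod.fst n) → ∀ Y : Sch F, SmoothProj Y → HomNumIn D n Y) ∧
      (GeneratedIn C n → (∀ Y : Sch F, SmoothProj Y → HomNumIn D n Y) →
        OnThin (BijAt C Prod.fst n)) := by
  refine ⟨fun n => on_thin (clo_at h.weight graded_weight n)
    (Pool.Agent.H51.TH.spaces_0c h.weight h.point n), fun n => ?_⟩
  have h1 := clo_thin hF (clo_at h.weight graded_weight n)
  exact ⟨h1.symm, fun g Y hY => (h.classes n Y hY).mpr (h1.mpr g Y hY.ft),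
    fun hg g => h1.mp (hg fun Y hY => (h.classes n Y hY).mp (g Y hY))⟩

end Pool.Agent.Results.MP_0c8446_ag.ThinSchubertCells
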